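import Pool.Agent.H45.SE.TarT

/-!
# TG: the rules, the relation `Side` and the classes `C(s)` are preserved (induction on the rank)
-/

set_option linter.unusedVariables false

open Ordinal Order Set
open scoped ZFSet

namespace SE

open SF

theorem pf_TG : T_TGa → T_TGb → T_TGc → T_TG := by
  intro hA hB hC D hD hT
  have key : ∀ o : Ordinal, ∀ k : V, k.rank = o → D.ObT k := by
    intro o
    induction o using WellFoundedLT.induction with
    | ind o ih =>
      intro k hk
      have h1 : ∀ j ∈ lS k, D.ObT j := by
        intro j hj
        have h2 := TT.rank_lS_lt hj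
        rw [hk] at h2
        exact ih _ h2 j rfl
      exact hC D hD hT k (hB D hD hT k (hA D hD hT (lS k) h1))
  have hO : ∀ k : V, D.ObT k := fun k => key _ k rfl
  have hCl : ∀ k : V, D.ClT k := fun k => hA D hD hT k (fun j _ => hO j)
  exact fun k => ⟨hO k, hB D hD hT k (hCl (lS k)), hCl k⟩

end SE
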