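import Pool.Agent.H45.SE.TarT

/-!
# TI: the generic filter contains a copy of `p'`
-/

set_option linter.unusedVariables false

open Ordinal Order Set
open scoped ZFSet

namespace SE

open SF

namespace TI74

/-- the conditions below a copy -/
noncomputable def EE (P H s L p fl ρ : V) : V := P.sep fun r => ∃ g ∈ H, Fre g s ∧
  Le r (mv (cpm L g (idm s) s p fl ρ) p)

theorem at7 {F : V → V → V → V → V → V → V → V}
    {a b c d e f g : (V → Prop) → (ℕ → V) → V}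
    (hF : Tm ZFm (fun _ v => F (v 0) (v 1) (v 2) (v 3) (v 4) (v 5) (v 6)))
    (ha : Tm ZFm a) (hb : Tm ZFm b) (hc : Tm ZFm c) (hd : Tm ZFm d) (he : Tm ZFm e)
    (hf : Tm ZFm f) (hg : Tm ZFm g) :
    Tm ZFm (fun M v => F (a M v) (b M v) (c M v) (d M v) (e M v) (f M v) (g M v)) :=
  hF.comp (args [a, b, c, d, e, f, g]) (tm_args _ (by
    intro x hx; simp only [List.mem_cons, List.not_mem_nil, or_false] at hx
    rcases hx with rfl | rfl | rfl | rfl | rfl | rfl | rfl <;> assumption))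

theorem tm_EE (hBBa : T_BBa) (hBBc : T_BBc) (hTA : T_TA) :
    Tm ZFm (fun _ v => EE (v 0) (v 1) (v 2) (v 3) (v 4) (v 5) (v 6)) := by
  obtain ⟨-, -, hcpm, -, hFre, hidm⟩ := hTA
  obtain ⟨-, -, -, -, -, -, -, -, -, -, -, hLe, -⟩ := hBBa
  obtain ⟨-, -, hmv, -⟩ := hBBc
  refine (Tm.sep (f := fun _ v => v 0) (R := fun _ v => ∃ g ∈ v 2, Fre g (v 3) ∧
    Le (v 0) (mv (cpm (v 4) g (idm (v 3)) (v 3) (v 5) (v 6) (v 7)) (v 5))) ?_ (Tm.var 0)).congr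
    fun M k v hv => rfl
  refine (Dfb.bex (R := fun _ v => Fre (v 0) (v 4) ∧
    Le (v 1) (mv (cpm (v 5) (v 0) (idm (v 4)) (v 4) (v 6) (v 7) (v 8)) (v 6))) ktr_zfm
    (Tm.var 2) ?_).congr fun M k v hv => Iff.rfl
  have hid : Tm ZFm (fun _ v => idm (v 4)) := Tm.at1 (F := fun _ x => idm x) hidm (Tm.var 4)
  have hc : Tm ZFm (fun _ v => cpm (v 5) (v 0) (idm (v 4)) (v 4) (v 6) (v 7) (v 8)) :=
    at7 (F := cpm) hcpm (Tm.var 5) (Tm.var 0) hid (Tm.var 4) (Tm.var 6) (Tm.var 7) (Tm.var 8)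
  have hm : Tm ZFm (fun _ v => mv (cpm (v 5) (v 0) (idm (v 4)) (v 4) (v 6) (v 7) (v 8)) (v 6)) :=
    Tm.at2 (F := fun _ x y => mv x y) hmv hc (Tm.var 6)
  exact (Dfb.at2 (P := fun _ x y => Fre x y) hFre (Tm.var 0) (Tm.var 4)).and
    (Dfb.at2 (P := fun _ x y => Le x y) hLe (Tm.var 1) hm)

theorem EE_mem (hBBa : T_BBa) (hBBc : T_BBc) (hTA : T_TA) {M : V → Prop} (k : ZFm M)
    {P H s L p fl ρ : V} (h0 : M P) (h1 : M H) (h2 : M s) (h3 : M L) (h4 : M p) (h5 : M fl)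
    (h6 : M ρ) : M (EE P H s L p fl ρ) := by
  have i0 : In M (fun _ => ∅) := fun _ => k.mempty
  have i1 := ((i0.cons h6).cons h5).cons h4
  have i2 := ((i1.cons h3).cons h2).cons h1
  have h := (tm_EE hBBa hBBc hTA).1 M k _ (i2.cons h0)
  exact h

end TI74

open TI74

theorem pf_TI (hBA : T_BA) (hBBa : T_BBa) (hBBc : T_BBc) (hBC : T_BC) (hBD : T_BD)
    (hBF : T_BF) (hBJ : T_BJ) (hBR : T_BR) (hBS : T_BS) (hTX : T_TX) (hTA : T_TA)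
    (hTBb : T_TBb) (hTBc : T_TBc) (hTEc : T_TEc) (hZA : T_ZA) : T_TI := by
  intro D hF G hG s hsH hsL hts ρ' hρ'H hc hsρ p' hp' hrG fl hfl hcp
  have hD : D.Ok := hF.ok
  have k : ZFm D.N := hD.zfc.toZFCm.toZFm
  obtain ⟨zLH, zC, -, -, -⟩ := hZA D hF
  obtain ⟨j1, j2, j3, j4, j5⟩ := hBJ D hD
  obtain ⟨-, j7⟩ := j5 D.Lam hF.lam zC
  obtain ⟨-, ⟨f1, f2, f3, f4, f5⟩, dens⟩ := j7 G hG
  obtain ⟨hNP, -⟩ := j4 D.Lam hF.lam
  obtain ⟨-, -, -, -, ba5, -, ba7⟩ := hBA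
  obtain ⟨-, -, -, bc4, -⟩ := hBC
  obtain ⟨-, bd2, bd3, bd4, -⟩ := hBD
  obtain ⟨-, -, -, br4, br5, -⟩ := hBR D hD
  have hcs : Cld D.L s := (ba7 D.L ρ' hc).2.2 s hsρ hts
  have hrs : rst s p' ∈ D.P s := (bd3 D.L ρ' s p' hp' (fun i hi _ => hts i hi)).1
  obtain ⟨hFFp, hdmp, -⟩ := (bc4 D.L ρ' p').1 hp'
  -- the data of a copy
  have cp : ∀ g ∈ D.H, Fre g s → D.Cpd g (idm s) s s (rst s p') ρ' p' fl := by
    intro g hg hfr
    exact ⟨(hTBc D hD s hsH hcs _ hrs).1, hρ'H, hc, hsρ, hp', (bd4 D.L s _ hrs).1, hg, hfr, hfl⟩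
  have hmv : ∀ g ∈ D.H, Fre g s → mv (cpm D.L g (idm s) s p' fl ρ') p' ∈ D.P D.Lam := by
    intro g hg hfr
    obtain ⟨hN, -, -, -, -, -⟩ := hTEc D hD g (idm s) s s (rst s p') ρ' p' fl (cp g hg hfr) _ _
      rfl rfl
    have h1 := (hTBb D.L _ ρ' _ p' hN.c hN.c' hN.i).2.2.2.1
    have h2 := ((bc4 D.L _ _).1 h1).2.1
    exact bd2 D.L _ _ _ h1 (fun x hx => hcp g hg hfr (h2 hx))
  have hE := EE_mem hBBa hBBc hTA k hNP hD.hN (j3 s hsH) j1 (j3 p' ((br5 ρ' hρ'H).2.2.1 p' hp'))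
    (j3 fl hfl) (j3 ρ' hρ'H)
  obtain ⟨r, hrG', hrE, -⟩ := dens _ (rst s p') hE hrG (by
    intro q hq hle
    obtain ⟨X0, hX0, hX0L, hX0c, hdq⟩ := (hBS D hD D.Lam G hF.lam zC zLH hG).2 q hq
    have hXH : X0 ∪ s ∈ D.H := (br4 X0 hX0 s hsH).2.1
    have hXc : Cld D.L (X0 ∪ s) := (ba5 D.L X0 s hX0c hcs).1
    have hXL : X0 ∪ s ⊆ D.Lam := by
      intro x hx
      rcases ZFSet.mem_union.1 hx with h | h
      · exact hX0L h
      · exact hsL h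
    have hfrX : Fre (X0 ∪ s) (X0 ∪ s) := hTX.1 _
    have hfr : Fre (X0 ∪ s) s := hTX.2 _ _ _ hfrX (fun x hx => ZFSet.mem_union.2 (Or.inr hx))
    obtain ⟨hN, -, hid, -, -, hl⟩ := hTEc D hD (X0 ∪ s) (idm s) s s (rst s p') ρ' p' fl
      (cp _ hXH hfr) _ _ rfl rfl
    set π : V := cpm D.L (X0 ∪ s) (idm s) s p' fl ρ' with hπ
    have hidm : ∀ i ∈ s, app π i = i := by
      intro i hi
      rw [hid i hi]
      exact (hTBc D hD s hsH hcs _ hrs).2.2.1 i hi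
    have hrst : rst (X0 ∪ s) (mv π p') = rst s p' := by
      apply ZFSet.ext
      intro z
      unfold rst mv
      rw [ZFSet.mem_sep, ZFSet.mem_sep, mem_imS]
      constructor
      · rintro ⟨⟨w, hw, hz⟩, hzX⟩
        obtain ⟨i, x, rfl⟩ := hFFp.2.2 w hw
        rw [fst_pair, snd_pair] at hz
        have hi : i ∈ ρ' := hdmp (mem_dm.2 ⟨x, hw⟩)
        rw [← hz, fst_pair] at hzX
        have his : i ∈ s := by
          by_contra his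
          obtain ⟨-, -, h3, -⟩ := hl i hi his
          exact hfrX _ hzX i h3
        rw [hidm i his] at hz
        rw [← hz, fst_pair]
        exact ⟨hw, his⟩
      · rintro ⟨hz, hzs⟩
        obtain ⟨i, x, rfl⟩ := hFFp.2.2 z hz
        rw [fst_pair] at hzs
        refine ⟨⟨_, hz, ?_⟩, ?_⟩
        · rw [fst_pair, snd_pair, hidm i hzs]
        · rw [fst_pair]
          exact ZFSet.mem_union.2 (Or.inr hzs)
    have hqX : q ∈ Pos D.L (X0 ∪ s) :=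
      bd2 D.L _ _ q hq (fun x hx => ZFSet.mem_union.2 (Or.inl (hdq hx)))
    obtain ⟨-, h2, h3, h4, -⟩ := hBF.1 D.L D.Lam (X0 ∪ s) (mv π p') q zC hXL
      (ba7 D.L _ hXc).1 (hmv _ hXH hfr) hqX (by rw [hrst]; exact hle)
    exact ⟨jn q (mv π p'), ZFSet.mem_sep.2 ⟨h2, X0 ∪ s, hXH, hfr, h4⟩, h2, h3⟩)
  obtain ⟨-, g, hg, hfr, hle⟩ := ZFSet.mem_sep.1 hrE
  exact ⟨g, hg, hfr, f3 r hrG' _ (hmv g hg hfr) hle⟩

end SE
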