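import Pool.Agent.H38.SE.TarB

set_option linter.unusedVariables false

open Ordinal Order Set
open scoped ZFSet

namespace SE

open SF

namespace BHaux

theorem mem_nS {n : ℕ} {x : V} (hx : x ∈ nS n) : ∃ l < n, x = nS l := by
  unfold nS at hx
  rw [Ordinal.mem_toZFSet_iff] at hx
  obtain ⟨a, ha, h⟩ := hx
  obtain ⟨l, rfl⟩ := Ordinal.lt_omega0.1 (lt_trans ha (Ordinal.natCast_lt_omega0 n))
  exact ⟨l, by exact_mod_cast ha, h.symm⟩

theorem mem_Fs {x y : V} : y ∈ Fs x ↔ y ⊆ x ∧ (y : Set V).Finite := by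
  unfold Fs
  rw [ZFSet.mem_sep, ZFSet.mem_powerset]

theorem qle_refl (x : V) : Qle x x :=
  ⟨fun _ h => h, fun _ h => h, fun n hn hn' => absurd hn hn'⟩

theorem main (hBC : T_BC) (hBD : T_BD) (hBG : T_BG) (L ρ p i s F : V) (hρ : Cld L ρ)
    (hp : p ∈ Pos L ρ) (hi : i ∈ ρ) (hs : s ∈ sq) (hF : F ∈ Fs L)
    (hq : i ∈ dm p → Qle (ZFSet.pair s F) (app p i))
    (hv : ∀ n ∈ dm s, ∃ b ∈ sq, ∃ j ∈ hf, dm b = n ∧ app s n = ZFSet.pair b j ∧
      ZFSet.pair (rst (lS i) p) b ∈ lY i) :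
    upd p i (ZFSet.pair s F) ∈ Pos L ρ ∧ Le (upd p i (ZFSet.pair s F)) p := by
  obtain ⟨-, -, -, hC4, -, -, -, -, -, -, hC11⟩ := hBC
  obtain ⟨-, -, -, -, -, hD6, -, -⟩ := hBD
  obtain ⟨hFF, hdm, hco⟩ := (hC4 L ρ p).1 hp
  obtain ⟨u1, u2, u3, u4, -⟩ := hC11 p i (ZFSet.pair s F) hFF
  have hle : Le (upd p i (ZFSet.pair s F)) p := by
    intro k hk
    refine ⟨by rw [u2]; exact ZFSet.mem_insert_iff.2 (Or.inr hk), ?_⟩
    by_cases hki : k = i
    · rw [hki, u3]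
      exact hq (hki ▸ hk)
    · rw [u4 k hki]
      exact qle_refl _
  have hler : ∀ S, Le (rst S (upd p i (ZFSet.pair s F))) (rst S p) := fun S =>
    hD6 S p _ hFF u1 hle
  refine ⟨hBG L ρ _ hρ u1 ?_ ?_ ?_, hle⟩
  · rw [u2]
    intro k hk
    rcases ZFSet.mem_insert_iff.1 hk with h | h
    · rw [h]; exact hi
    · exact hdm h
  · intro k hk
    by_cases hki : k = i
    · rw [hki, u3, fst_pair, snd_pair]
      exact ⟨rfl, hs, hF⟩
    · rw [u4 k hki]
      have hk' : k ∈ dm p := by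
        rw [u2] at hk
        exact (ZFSet.mem_insert_iff.1 hk).resolve_left hki
      exact ⟨(hco k hk').eq, (hco k hk').s, (hco k hk').f⟩
  · intro k hk n hn
    by_cases hki : k = i
    · subst hki
      rw [u3, fst_pair] at hn ⊢
      obtain ⟨b, hb, j, hj, e1, e2, e3⟩ := hv n hn
      exact ⟨b, hb, j, hj, rst (lS k) p, e1, e2, e3, hler _⟩
    · rw [u4 k hki] at hn ⊢
      have hk' : k ∈ dm p := by
        rw [u2] at hk
        exact (ZFSet.mem_insert_iff.1 hk).resolve_left hki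
      obtain ⟨b, hb, j, hj, e1, e2, e3⟩ := (hco k hk').v n hn
      exact ⟨b, hb, j, hj, rst (lS k) p, e1, e2, e3, hler _⟩

end BHaux

open BHaux

theorem pf_BH (hAA : T_AA) (hAF : T_AF) (hBC : T_BC) (hBD : T_BD) (hBG : T_BG) : T_BH := by
  obtain ⟨-, -, -, hpr, -, -, -, -, -⟩ := hAA
  obtain ⟨hsq, hF2, -, -, hF5, hF6, -⟩ := hAF
  have hC4 := hBC.2.2.2.1
  refine ⟨?_, ?_, ?_⟩
  · intro L ρ p i hρ hp hi hip
    refine main hBC hBD hBG L ρ p i ∅ ∅ hρ hp hi ((hsq _).2 ⟨0, hF2⟩)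
      (mem_Fs.2 ⟨fun z hz => absurd hz (ZFSet.notMem_empty z), by simp⟩)
      (fun h => absurd h hip) ?_
    intro n hn
    obtain ⟨y, hy⟩ := mem_dm.1 hn
    exact absurd hy (ZFSet.notMem_empty _)
  · intro L ρ p i F hρ hp hi hF
    obtain ⟨-, hdm, hco⟩ := (hC4 L ρ p).1 hp
    have hF' := mem_Fs.1 hF
    have hFi := mem_Fs.1 (hco i hi).f
    refine main hBC hBD hBG L ρ p i _ _ hρ hp (hdm hi) (hco i hi).s (mem_Fs.2 ⟨?_, ?_⟩)
      (fun _ => ⟨?_, ?_, ?_⟩) (hco i hi).v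
    · intro z hz
      rcases ZFSet.mem_union.1 hz with h | h
      · exact hFi.1 h
      · exact hF'.1 h
    · refine (hFi.2.union hF'.2).subset fun z hz => ?_
      rcases ZFSet.mem_union.1 hz with h | h
      · exact Or.inl h
      · exact Or.inr h
    · rw [fst_pair]
    · rw [snd_pair]
      exact fun _ h => ZFSet.mem_union.2 (Or.inl h)
    · intro n hn hn'
      rw [fst_pair] at hn
      exact absurd hn hn'
  · intro L ρ p i n b j hρ hp hi hdn hb hbn hbY hj hjl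
    obtain ⟨-, hdm, hco⟩ := (hC4 L ρ p).1 hp
    obtain ⟨m, hm⟩ := (hsq _).1 (hco i hi).s
    have hmn : m = n := nS_inj.1 ((hF5 m _ hm).2.2.1.symm.trans hdn)
    subst hmn
    have hbh : b ∈ hf := by
      obtain ⟨m', hm'⟩ := (hsq _).1 hb
      exact (hF5 m' _ hm').1
    obtain ⟨w1, w2, w3⟩ := hF6 m (fst (app p i)) (ZFSet.pair b j) hm (hpr b hbh j hj)
    have hdi := (hF5 _ _ w1).2.2.1
    refine main hBC hBD hBG L ρ p i _ _ hρ hp (hdm hi) ((hsq _).2 ⟨_, w1⟩) (hco i hi).f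
      (fun _ => ⟨?_, ?_, ?_⟩) ?_
    · rw [fst_pair]
      exact fun _ h => ZFSet.mem_insert_iff.2 (Or.inr h)
    · rw [snd_pair]
    · intro k hk hk'
      rw [fst_pair, hdi] at hk
      obtain ⟨l, hl, rfl⟩ := mem_nS hk
      have hlm : l = m := by
        by_contra hne
        apply hk'
        rw [hdn]
        have hlt : l < m := by omega
        unfold nS
        rw [Ordinal.mem_toZFSet_iff]
        exact ⟨l, by exact_mod_cast hlt, rfl⟩
      subst hlm
      rw [fst_pair, w2]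
      exact hjl
    · intro k hk
      rw [hdi] at hk
      obtain ⟨l, hl, rfl⟩ := mem_nS hk
      by_cases hlm : l = m
      · subst hlm
        exact ⟨b, hb, j, hj, hbn, w2, hbY⟩
      · have hlt : l < m := by omega
        rw [w3 l hlt]
        refine (hco i hi).v _ ?_
        rw [hdn]
        unfold nS
        rw [Ordinal.mem_toZFSet_iff]
        exact ⟨l, by exact_mod_cast hlt, rfl⟩

end SE
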