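import Pool.Agent.H38.SE.TarS

set_option linter.unusedVariables false

open Ordinal Order Set
open scoped ZFSet

namespace SE

open SF

theorem pf_SE (hBA : T_BA) (hBC : T_BC) (hSA : T_SA) : T_SE := by
  obtain ⟨-, -, -, -, -, -, hA7⟩ := hBA
  have hC4 := hBC.2.2.2.1
  intro D hD hT ρ G hSt s hs
  obtain ⟨-, -, hS3, -, -⟩ := hSA D hD ρ G hSt
  obtain ⟨-, hA, -⟩ := hA7 D.L ρ hSt.c
  have key : ∀ k i, i ∈ ρ → k ∈ lS i → ((∃ p ∈ G, ZFSet.pair i p ∈ D.T k) ↔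
      D.Ob k i (gs G (lS i))) := by
    intro k i hi hk
    obtain ⟨hl, hls, hlc, -, -⟩ := hA i hi
    have hiH : i ∈ D.H := hD.zfH.trans ρ hSt.h i hi
    have hlH : lS i ∈ D.H := by
      have h1 := hiH
      rw [hl.eq] at h1
      exact (hD.zfH.of_pair (hD.zfH.of_pair (hD.zfH.of_pair h1).2).2).1
    have hlN : D.N (lS i) := hD.zfc.trans D.H hD.hN _ hlH
    have hg := (hS3 (lS i) hlN hls (hA7 D.L (lS i) hlc).1).1.g
    rw [← hT.ob k i (gs G (lS i)) hiH hl hlc hk hg]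
    constructor
    · rintro ⟨p, hp, hpT⟩
      refine ⟨p, ?_, hpT⟩
      unfold gs
      rw [ZFSet.mem_sep]
      exact ⟨hp, ((hC4 D.L (lS i) p).1 (hT.tp k i p hpT)).2.1⟩
    · rintro ⟨p, hp, hpT⟩
      unfold gs at hp
      rw [ZFSet.mem_sep] at hp
      exact ⟨p, hp.1, hpT⟩
  constructor
  · intro h
    exact ⟨h.con, fun k hk i hi hki => (key k i hi hki).1 (h.rul k hk i hi hki)⟩
  · rintro ⟨h1, h2⟩
    exact ⟨h1, fun k hk i hi hki => (key k i hi hki).2 (h2 k hk i hi hki)⟩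

end SE
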